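import Pool.Agent.R877.RN.Stm

/-! RN-ADC (helper451): P_ADC and P_CEN -/

namespace R877.RN
open Matrix Filter Topology

namespace AdcAux

lemma trans_mul {n : ℕ} {l : Mat n} (hl : IsO l) : lᵀ * l = 1 := by
  unfold IsO at hl
  exact mul_eq_one_comm.mp hl

lemma inv_eq {n : ℕ} {l : Mat n} (hl : IsO l) : l⁻¹ = lᵀ := Matrix.inv_eq_right_inv hl

lemma conj_adm {n : ℕ} {l : Mat n} (hl : IsO l) (μ : Br n) (x : Fin n → ℝ) (k i : Fin n) :
    (l * adm μ x * lᵀ) k i = ∑ p', (l *ᵥ x) p' * act l μ p' i k := by
  set y : Fin n → ℝ := l *ᵥ x with hy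
  have hx : ∀ p, ∑ p', y p' * l p' p = x p := by
    intro p
    have h1 : lᵀ *ᵥ y = x := by
      rw [hy, Matrix.mulVec_mulVec, trans_mul hl, Matrix.one_mulVec]
    have h2 : (lᵀ *ᵥ y) p = x p := by rw [h1]
    rw [← h2]
    simp only [Matrix.mulVec, dotProduct, Matrix.transpose_apply]
    apply Finset.sum_congr rfl
    intro p' _
    ring
  set B : Fin n → ℝ := fun p => ∑ q, ∑ r, l k r * μ p q r * l i q with hB
  have hR : ∑ p', y p' * act l μ p' i k = ∑ p, x p * B p := by
    calc ∑ p', y p' * act l μ p' i k = ∑ p', ∑ p, (y p' * l p' p) * B p := by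
          apply Finset.sum_congr rfl
          intro p' _
          unfold act
          rw [inv_eq hl, Finset.mul_sum]
          apply Finset.sum_congr rfl
          intro p _
          simp only [hB]
          rw [Finset.mul_sum, Finset.mul_sum]
          apply Finset.sum_congr rfl
          intro q _
          rw [Finset.mul_sum, Finset.mul_sum]
          apply Finset.sum_congr rfl
          intro r _
          simp only [Matrix.transpose_apply]
          ring
      _ = ∑ p, x p * B p := by
          rw [Finset.sum_comm]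
          apply Finset.sum_congr rfl
          intro p _
          rw [← Finset.sum_mul, hx]
  rw [hR]
  simp only [Matrix.mul_apply, Matrix.transpose_apply, adm, hB]
  simp only [Finset.mul_sum, Finset.sum_mul]
  rw [Finset.sum_comm' (s := Finset.univ) (t := fun _ => Finset.univ) (t' := Finset.univ)
    (s' := fun _ => Finset.univ) (by simp)]
  rw [Finset.sum_comm]
  have h1 : ∀ q, ∑ r, ∑ p, l k r * (x p * μ p q r) * l i q
      = ∑ p, ∑ r, x p * (l k r * μ p q r * l i q) := by
    intro q
    rw [Finset.sum_comm]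
    apply Finset.sum_congr rfl
    intro p _
    apply Finset.sum_congr rfl
    intro r _
    ring
  rw [Finset.sum_congr rfl fun q _ => h1 q, Finset.sum_comm]

lemma act_row {n : ℕ} {l : Mat n} (hl : IsO l) (μ : Br n) (i j k : Fin n) :
    act l μ i j k = (l * adm μ (fun p => l i p) * lᵀ) k j := by
  rw [conj_adm hl]
  have h1 : ∀ p', (l *ᵥ (fun p => l i p)) p' = if p' = i then 1 else 0 := by
    intro p'
    have h2 : (l * lᵀ) p' i = (1 : Mat n) p' i := by
      have : l * lᵀ = 1 := hl
      rw [this]
    rw [Matrix.mul_apply, Matrix.one_apply] at h2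
    rw [← h2]
    simp only [Matrix.mulVec, dotProduct, Matrix.transpose_apply]
  simp only [h1, ite_mul, one_mul, zero_mul, Finset.sum_ite_eq', Finset.mem_univ, if_true]

lemma act_asym {n : ℕ} (l : Mat n) {μ : Br n} (hμ : Asym μ) (i j k : Fin n) :
    act l μ i j k = - act l μ j i k := by
  unfold act
  rw [Finset.sum_comm, ← Finset.sum_neg_distrib]
  apply Finset.sum_congr rfl
  intro p _
  rw [← Finset.sum_neg_distrib]
  apply Finset.sum_congr rfl
  intro q _
  rw [← Finset.sum_neg_distrib]
  apply Finset.sum_congr rfl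
  intro r _
  rw [hμ q p r]
  ring

/-- the Gram matrix -/
def Gm {n : ℕ} (μ : Br n) : Mat n := fun i j => ∑ p, ∑ k, μ i p k * μ j p k

lemma Gm_symm {n : ℕ} (μ : Br n) (i j : Fin n) : Gm μ i j = Gm μ j i := by
  unfold Gm
  apply Finset.sum_congr rfl
  intro p _
  apply Finset.sum_congr rfl
  intro k _
  ring

lemma Gm_mulVec {n : ℕ} (μ : Br n) (w : Fin n → ℝ) (i : Fin n) :
    (Gm μ *ᵥ w) i = ∑ p, ∑ k, μ i p k * adm μ w k p := by
  simp only [Matrix.mulVec, dotProduct, Gm, adm]
  simp only [Finset.sum_mul, Finset.mul_sum]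
  rw [Finset.sum_comm]
  apply Finset.sum_congr rfl
  intro p _
  rw [Finset.sum_comm]
  apply Finset.sum_congr rfl
  intro k _
  apply Finset.sum_congr rfl
  intro j _
  ring

lemma Gm_zero {n : ℕ} {μ : Br n} {w : Fin n → ℝ} (h : adm μ w = 0) : Gm μ *ᵥ w = 0 := by
  funext i
  rw [Gm_mulVec, h]
  simp

lemma adm_zero {n : ℕ} {μ : Br n} {w : Fin n → ℝ} (h : Gm μ *ᵥ w = 0) : adm μ w = 0 := by
  have h1 : w ⬝ᵥ (Gm μ *ᵥ w) = ∑ p, ∑ k, (adm μ w k p) ^ 2 := by
    simp only [dotProduct, Gm_mulVec, Finset.mul_sum]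
    rw [Finset.sum_comm]
    apply Finset.sum_congr rfl
    intro p _
    rw [Finset.sum_comm]
    apply Finset.sum_congr rfl
    intro k _
    have h2 : adm μ w k p = ∑ q, w q * μ q p k := rfl
    rw [sq]
    conv_rhs => rw [h2, Finset.sum_mul]
    apply Finset.sum_congr rfl
    intro i _
    rw [h2]
    ring
  rw [h, dotProduct_zero] at h1
  have h3 := (Finset.sum_eq_zero_iff_of_nonneg
    (fun p _ => Finset.sum_nonneg fun k _ => sq_nonneg (adm μ w k p))).mp h1.symm
  ext k p
  have h4 := (Finset.sum_eq_zero_iff_of_nonneg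
    (fun k _ => sq_nonneg (adm μ w k p))).mp (h3 p (Finset.mem_univ p)) k (Finset.mem_univ k)
  simpa using h4

lemma der_center {n : ℕ} {μ : Br n} {A : Mat n} (hA : IsDer A μ) {x : Fin n → ℝ}
    (hx : adm μ x = 0) : adm μ (A *ᵥ x) = 0 := by
  have hx' : ∀ k i, ∑ p, x p * μ p i k = 0 := by
    intro k i
    have := congrFun (congrFun hx k) i
    exact this
  ext k j
  show ∑ p, (A *ᵥ x) p * μ p j k = 0
  have h1 : ∑ i, x i * (∑ r, A k r * μ i j r) = 0 := by
    simp only [Finset.mul_sum]
    rw [Finset.sum_comm]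
    apply Finset.sum_eq_zero
    intro r _
    have h2 : ∑ i, x i * (A k r * μ i j r) = A k r * ∑ i, x i * μ i j r := by
      rw [Finset.mul_sum]
      apply Finset.sum_congr rfl
      intro i _
      ring
    rw [h2, hx', mul_zero]
  have h3 : ∑ i, x i * (∑ r, A k r * μ i j r)
      = ∑ i, x i * (∑ p, A p i * μ p j k + ∑ q, A q j * μ i q k) := by
    apply Finset.sum_congr rfl
    intro i _
    rw [hA i j k]
  rw [h3] at h1
  simp only [mul_add, Finset.sum_add_distrib] at h1
  have h4 : ∑ i, x i * ∑ q, A q j * μ i q k = 0 := by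
    simp only [Finset.mul_sum]
    rw [Finset.sum_comm]
    apply Finset.sum_eq_zero
    intro q _
    have h5 : ∑ i, x i * (A q j * μ i q k) = A q j * ∑ i, x i * μ i q k := by
      rw [Finset.mul_sum]
      apply Finset.sum_congr rfl
      intro i _
      ring
    rw [h5, hx', mul_zero]
  rw [h4, add_zero] at h1
  rw [← h1]
  simp only [Matrix.mulVec, dotProduct, Finset.sum_mul, Finset.mul_sum]
  rw [Finset.sum_comm]
  apply Finset.sum_congr rfl
  intro i _
  apply Finset.sum_congr rfl
  intro p _
  ring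

end AdcAux

open AdcAux

theorem p_ADC : P_ADC := by
  intro n μ l a hl ha hCB x k i hne
  rw [conj_adm hl] at hne
  obtain ⟨p', -, hp⟩ := Finset.exists_ne_zero_of_sum_ne_zero hne
  have h1 := hCB p' i k (right_ne_zero_of_mul hp)
  have h2 := ha p'
  linarith

theorem p_CEN : P_CEN := by
  intro n μ hn hμ hTri
  -- a central vector
  obtain ⟨x0, hx0, hx0'⟩ : ∃ x : Fin n → ℝ, x ≠ 0 ∧ adm μ x = 0 := by
    obtain ⟨l0, hl0, h0, -⟩ := hTri
    set t : Fin n := ⟨n - 1, by omega⟩ with ht
    refine ⟨fun p => l0 t p, ?_, ?_⟩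
    · intro h
      have h1 : (l0 * l0ᵀ) t t = (1 : Mat n) t t := by
        have : l0 * l0ᵀ = 1 := hl0
        rw [this]
      rw [Matrix.mul_apply, Matrix.one_apply_eq] at h1
      have h2 : ∀ p, l0 t p = 0 := fun p => congrFun h p
      simp [h2] at h1
    · have h1 : l0 * adm μ (fun p => l0 t p) * l0ᵀ = 0 := by
        ext k j
        rw [← act_row hl0]
        by_contra hne
        have h2 := (h0 t j k hne).1
        have h3 : (k : ℕ) < n := k.isLt
        have h4 : (t : ℕ) < (k : ℕ) := h2
        simp only [ht] at h4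
        omega
      have h2 : l0ᵀ * (l0 * adm μ (fun p => l0 t p) * l0ᵀ) * l0 = adm μ (fun p => l0 t p) := by
        rw [Matrix.mul_assoc, Matrix.mul_assoc, Matrix.mul_assoc, trans_mul hl0, Matrix.mul_one,
          ← Matrix.mul_assoc, trans_mul hl0, Matrix.one_mul]
      rw [← h2, h1]
      simp
  -- spectral theorem for the Gram matrix
  have hH : (Gm μ).IsHermitian := by
    ext i j
    rw [Matrix.conjTranspose_apply]
    simp only [star_trivial]
    exact Gm_symm μ j i
  set b := hH.eigenvectorBasis with hb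
  set g := hH.eigenvalues with hg
  set l : Mat n := fun i p => b i p with hl
  have hO : IsO l := by
    unfold IsO
    ext i j
    rw [Matrix.mul_apply, Matrix.one_apply]
    have h1 := orthonormal_iff_ite.mp b.orthonormal i j
    rw [← h1]
    show ∑ p, b i p * b j p = _
    rw [PiLp.inner_apply]
    apply Finset.sum_congr rfl
    intro p _
    simp only [RCLike.inner_apply, conj_trivial]
    ring
  have hev : ∀ i, Gm μ *ᵥ (fun p => l i p) = g i • (fun p => l i p) := by
    intro i
    have h1 := hH.mulVec_eigenvectorBasis i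
    exact h1
  have hrow : ∀ i, g i = 0 → adm μ (fun p => l i p) = 0 := by
    intro i hi
    apply adm_zero
    rw [hev i, hi, zero_smul]
  have horth : ∀ i, g i ≠ 0 → ∀ w : Fin n → ℝ, adm μ w = 0 → ∑ p, l i p * w p = 0 := by
    intro i hi w hw
    have h1 : Gm μ *ᵥ w = 0 := Gm_zero hw
    have h2 : (fun p => l i p) ⬝ᵥ (Gm μ *ᵥ w) = (Gm μ *ᵥ (fun p => l i p)) ⬝ᵥ w := by
      rw [Matrix.dotProduct_mulVec]
      congr 1
      funext j
      simp only [Matrix.vecMul, Matrix.mulVec, dotProduct]
      apply Finset.sum_congr rfl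
      intro p _
      rw [Gm_symm μ p j]
      ring
    rw [h1, dotProduct_zero, hev i, smul_dotProduct, smul_eq_mul] at h2
    exact (mul_eq_zero.mp h2.symm).resolve_left hi
  set a : Fin n → ℝ := fun i => if g i = 0 then 1 else 0 with ha
  have ha0 : ∀ i, 0 ≤ a i := by
    intro i
    simp only [ha]
    split_ifs <;> norm_num
  refine ⟨l, a, hO, ha0, ?_, ?_, ?_⟩
  · by_contra hcon
    push Not at hcon
    have h1 : ∀ i, g i ≠ 0 := by
      intro i hi
      have h2 := hcon i
      simp only [ha] at h2
      rw [if_pos hi] at h2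
      linarith
    have h3 : l *ᵥ x0 = 0 := by
      funext i
      exact horth i (h1 i) x0 hx0'
    apply hx0
    have h4 : lᵀ *ᵥ (l *ᵥ x0) = x0 := by
      rw [Matrix.mulVec_mulVec, trans_mul hO, Matrix.one_mulVec]
    rw [← h4, h3, Matrix.mulVec_zero]
  · intro i j k hne
    have hi : a i = 0 := by
      simp only [ha]
      rw [if_neg]
      intro hgi
      apply hne
      rw [act_row hO, hrow i hgi]
      simp
    have hj : a j = 0 := by
      simp only [ha]
      rw [if_neg]
      intro hgj
      apply hne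
      rw [act_asym l hμ, act_row hO, hrow j hgj]
      simp
    rw [hi, hj]
    have := ha0 k
    linarith
  · intro A hA i j hne
    by_cases hgi : g i = 0
    · have h1 : a i = 1 := by simp only [ha]; rw [if_pos hgi]
      rw [h1]
      simp only [ha]
      split_ifs <;> norm_num
    · by_cases hgj : g j = 0
      · exfalso
        apply hne
        have h1 := der_center hA (hrow j hgj)
        have h2 := horth i hgi _ h1
        rw [Matrix.mul_assoc, Matrix.mul_apply]
        rw [← h2]
        apply Finset.sum_congr rfl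
        intro p _
        congr 1
      · have h1 : a j = 0 := by simp only [ha]; rw [if_neg hgj]
        rw [h1]
        exact ha0 i

end R877.RN
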